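import Pool.Agent.Y485.HS.Stm

/-!
Uniform limits of maps with bounded energy have bounded energy (job HSS-CL).
-/

set_option autoImplicit false

open MeasureTheory Set Metric Filter Topology
open scoped ENNReal NNReal

namespace Pool.Agent.Y689.HS.CL

open Pool.Agent.Y485.HS

/-- A decreasing sequence of bounded nonempty convex sets in a Hilbert space has a convergent
selection. -/
theorem hilbert {H : Type*} [NormedAddCommGroup H] [InnerProductSpace ℝ H] [CompleteSpace H]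
    (Q : ℕ → Set H) (hc : ∀ k, Convex ℝ (Q k)) (hne : ∀ k, (Q k).Nonempty) (hanti : Antitone Q)
    (C : ℝ) (hb : ∀ k, ∀ w ∈ Q k, ‖w‖ ≤ C) :
    ∃ (w : H) (q : ℕ → H), (∀ k, q k ∈ Q k) ∧ Tendsto q atTop (𝓝 w) := by
  set r : ℕ → ℝ := fun k => sInf (norm '' (Q k)) with hr
  have hbdd : ∀ k, BddBelow (norm '' (Q k)) := fun k => ⟨0, by rintro _ ⟨w, _, rfl⟩; positivity⟩
  have hrle : ∀ k, ∀ w ∈ Q k, r k ≤ ‖w‖ := fun k w hw => csInf_le (hbdd k) ⟨w, hw, rfl⟩
  have hr0 : ∀ k, 0 ≤ r k := fun k => le_csInf ((hne k).image _) (by rintro _ ⟨w, _, rfl⟩; positivity)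
  have hmono : Monotone r := by
    intro k l hkl
    exact csInf_le_csInf (hbdd k) ((hne l).image _) (image_mono (hanti hkl))
  have hrC : ∀ k, r k ≤ C := by
    intro k
    obtain ⟨w, hw⟩ := hne k
    exact (hrle k w hw).trans (hb k w hw)
  have hbA : BddAbove (range r) := ⟨C, by rintro _ ⟨k, rfl⟩; exact hrC k⟩
  set R : ℝ := ⨆ k, r k with hR
  have hlim : Tendsto r atTop (𝓝 R) := tendsto_atTop_ciSup hmono hbA
  have hrR : ∀ k, r k ≤ R := fun k => le_ciSup hbA k
  have hex : ∀ k, ∃ w ∈ Q k, ‖w‖ < r k + 1 / ((k : ℝ) + 1) := by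
    intro k
    have h1 : sInf (norm '' (Q k)) < r k + 1 / ((k : ℝ) + 1) := by
      have : (0 : ℝ) < 1 / ((k : ℝ) + 1) := by positivity
      show r k < _
      linarith
    obtain ⟨_, ⟨w, hw, rfl⟩, hlt⟩ := exists_lt_of_csInf_lt ((hne k).image _) h1
    exact ⟨w, hw, hlt⟩
  choose q hqm hqn using hex
  have hcau : CauchySeq q := by
    refine cauchySeq_of_le_tendsto_0
      (fun N : ℕ => Real.sqrt (4 * (R + 1 / ((N : ℝ) + 1)) ^ 2 - 4 * (r N) ^ 2)) ?_ ?_
    · intro k l N hk hl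
      rw [dist_eq_norm]
      apply Real.le_sqrt_of_sq_le
      have hkQ : q k ∈ Q N := hanti hk (hqm k)
      have hlQ : q l ∈ Q N := hanti hl (hqm l)
      have hmid : (1 / 2 : ℝ) • q k + (1 / 2 : ℝ) • q l ∈ Q N :=
        hc N hkQ hlQ (by norm_num) (by norm_num) (by norm_num)
      have h2 := hrle N _ hmid
      rw [← smul_add, norm_smul, Real.norm_eq_abs, abs_of_pos (by norm_num : (0 : ℝ) < 1 / 2)] at h2
      have h3 : 2 * r N ≤ ‖q k + q l‖ := by linarith
      have hpar := parallelogram_law_with_norm ℝ (q k) (q l)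
      have hkn : ‖q k‖ ≤ R + 1 / ((N : ℝ) + 1) := by
        have h4 : 1 / ((k : ℝ) + 1) ≤ 1 / ((N : ℝ) + 1) := by
          apply one_div_le_one_div_of_le (by positivity)
          have : (N : ℝ) ≤ k := by exact_mod_cast hk
          linarith
        linarith [hqn k, hrR k]
      have hln : ‖q l‖ ≤ R + 1 / ((N : ℝ) + 1) := by
        have h4 : 1 / ((l : ℝ) + 1) ≤ 1 / ((N : ℝ) + 1) := by
          apply one_div_le_one_div_of_le (by positivity)
          have : (N : ℝ) ≤ l := by exact_mod_cast hl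
          linarith
        linarith [hqn l, hrR l]
      have h5 : ‖q k‖ ^ 2 ≤ (R + 1 / ((N : ℝ) + 1)) ^ 2 := pow_le_pow_left₀ (norm_nonneg _) hkn 2
      have h6 : ‖q l‖ ^ 2 ≤ (R + 1 / ((N : ℝ) + 1)) ^ 2 := pow_le_pow_left₀ (norm_nonneg _) hln 2
      have h7 : (2 * r N) ^ 2 ≤ ‖q k + q l‖ ^ 2 :=
        pow_le_pow_left₀ (mul_nonneg (by norm_num) (hr0 N)) h3 2
      nlinarith
    · have h1 : Tendsto (fun N : ℕ => 4 * (R + 1 / ((N : ℝ) + 1)) ^ 2 - 4 * (r N) ^ 2) atTop
          (𝓝 (4 * (R + 0) ^ 2 - 4 * R ^ 2)) :=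
        (((tendsto_const_nhds.add tendsto_one_div_add_atTop_nhds_zero_nat).pow 2).const_mul 4).sub
          ((hlim.pow 2).const_mul 4)
      have h2 := h1.sqrt
      simpa using h2
  obtain ⟨w, hw⟩ := cauchySeq_tendsto_of_complete hcau
  exact ⟨w, q, hqm, hw⟩

variable {n : ℕ}

/-- The ball as a measure. -/
noncomputable abbrev muB (n : ℕ) : Measure (E n) := volume.restrict (BB n)

theorem measB : MeasurableSet (BB n) := isClosed_closedBall.measurableSet

theorem finB : volume (BB n) < ∞ := by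
  unfold BB
  exact measure_closedBall_lt_top

/-- The convex sets of gradients. -/
def Q (m : ℕ) (v : E n → E n) (ε : ℝ) : Set (Lp ℝ 2 (muB n)) :=
  {w | ∃ (u : E n → E n) (N : Set (E n)), volume N = 0 ∧
    (∀ x ∈ BB n, dist (u x) (v x) ≤ ε) ∧ (∀ x ∈ BB n, x ∉ N → 0 ≤ w x) ∧
    (∀ x ∈ BB n, x ∉ N → ∀ y ∈ BB n, y ∉ N → dist (u x) (u y) ≤ dist x y * (w x + w y)) ∧
    ∫⁻ x in BB n, ENNReal.ofReal (w x) ^ n ≤ m}

theorem null_of_ae {p : E n → Prop} (h : ∀ᵐ x ∂(muB n), p x) :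
    volume {x | ¬ (x ∈ BB n → p x)} = 0 := by
  have := (ae_restrict_iff' (measB (n := n))).1 h
  exact this

theorem convex_Q (m : ℕ) (v : E n → E n) (ε : ℝ) : Convex ℝ (Q m v ε) := by
  rintro w1 ⟨u1, N1, hN1, hd1, hp1, hi1, hm1⟩ w2 ⟨u2, N2, hN2, hd2, hp2, hi2, hm2⟩ a b ha hb hab
  have hae : ∀ᵐ x ∂(muB n), (a • w1 + b • w2 : Lp ℝ 2 (muB n)) x = a * w1 x + b * w2 x := by
    filter_upwards [Lp.coeFn_add (a • w1) (b • w2), Lp.coeFn_smul a w1, Lp.coeFn_smul b w2]
      with x h1 h2 h3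
    rw [h1, Pi.add_apply, h2, h3]
    simp
  have hnull := null_of_ae hae
  refine ⟨fun x => a • u1 x + b • u2 x,
    N1 ∪ N2 ∪ {x | ¬ (x ∈ BB n → (a • w1 + b • w2 : Lp ℝ 2 (muB n)) x = a * w1 x + b * w2 x)},
    ?_, ?_, ?_, ?_, ?_⟩
  · rw [measure_union_null_iff, measure_union_null_iff]
    exact ⟨⟨hN1, hN2⟩, hnull⟩
  · intro x hx
    have h1 := hd1 x hx
    have h2 := hd2 x hx
    rw [dist_eq_norm] at h1 h2 ⊢
    have h3 : a • u1 x + b • u2 x - v x = a • (u1 x - v x) + b • (u2 x - v x) := by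
      have : v x = a • v x + b • v x := by rw [← add_smul, hab, one_smul]
      conv_lhs => rw [this]
      rw [smul_sub, smul_sub]
      abel
    rw [h3]
    calc ‖a • (u1 x - v x) + b • (u2 x - v x)‖ ≤ ‖a • (u1 x - v x)‖ + ‖b • (u2 x - v x)‖ :=
          norm_add_le _ _
      _ = a * ‖u1 x - v x‖ + b * ‖u2 x - v x‖ := by
          rw [norm_smul, norm_smul, Real.norm_of_nonneg ha, Real.norm_of_nonneg hb]
      _ ≤ a * ε + b * ε := by gcongr
      _ = ε := by rw [← add_mul, hab, one_mul]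
  · intro x hx hxN
    simp only [mem_union, Set.mem_ofPred_eq, not_or, not_not] at hxN
    obtain ⟨⟨hx1, hx2⟩, hx3⟩ := hxN
    rw [hx3 hx]
    exact add_nonneg (mul_nonneg ha (hp1 x hx hx1)) (mul_nonneg hb (hp2 x hx hx2))
  · intro x hx hxN y hy hyN
    simp only [mem_union, Set.mem_ofPred_eq, not_or, not_not] at hxN hyN
    obtain ⟨⟨hx1, hx2⟩, hx3⟩ := hxN
    obtain ⟨⟨hy1, hy2⟩, hy3⟩ := hyN
    rw [hx3 hx, hy3 hy]
    have h1 := hi1 x hx hx1 y hy hy1
    have h2 := hi2 x hx hx2 y hy hy2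
    rw [dist_eq_norm (u1 x)] at h1
    rw [dist_eq_norm (u2 x)] at h2
    rw [dist_eq_norm (a • u1 x + b • u2 x)]
    have h3 : a • u1 x + b • u2 x - (a • u1 y + b • u2 y) =
        a • (u1 x - u1 y) + b • (u2 x - u2 y) := by
      rw [smul_sub, smul_sub]
      abel
    rw [h3]
    calc ‖a • (u1 x - u1 y) + b • (u2 x - u2 y)‖
        ≤ ‖a • (u1 x - u1 y)‖ + ‖b • (u2 x - u2 y)‖ := norm_add_le _ _
      _ = a * ‖u1 x - u1 y‖ + b * ‖u2 x - u2 y‖ := by
          rw [norm_smul, norm_smul, Real.norm_of_nonneg ha, Real.norm_of_nonneg hb]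
      _ ≤ a * (dist x y * (w1 x + w1 y)) + b * (dist x y * (w2 x + w2 y)) := by gcongr
      _ = dist x y * (a * w1 x + b * w2 x + (a * w1 y + b * w2 y)) := by ring
  · have hn1 : ∀ᵐ x ∂(muB n), x ∉ N1 := by
      have : ∀ᵐ x ∂(volume : Measure (E n)), x ∉ N1 := measure_eq_zero_iff_ae_notMem.1 hN1
      exact ae_restrict_of_ae this
    have hn2 : ∀ᵐ x ∂(muB n), x ∉ N2 := by
      have : ∀ᵐ x ∂(volume : Measure (E n)), x ∉ N2 := measure_eq_zero_iff_ae_notMem.1 hN2
      exact ae_restrict_of_ae this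
    have hB : ∀ᵐ x ∂(muB n), x ∈ BB n := ae_restrict_mem measB
    have hle : ∀ᵐ x ∂(muB n), ENNReal.ofReal ((a • w1 + b • w2 : Lp ℝ 2 (muB n)) x) ^ n ≤
        ENNReal.ofReal a * ENNReal.ofReal (w1 x) ^ n +
          ENNReal.ofReal b * ENNReal.ofReal (w2 x) ^ n := by
      filter_upwards [hae, hn1, hn2, hB] with x h0 h1 h2 h3
      have p1 := hp1 x h3 h1
      have p2 := hp2 x h3 h2
      rw [h0, ← ENNReal.ofReal_pow p1, ← ENNReal.ofReal_pow p2,
        ← ENNReal.ofReal_pow (by positivity), ← ENNReal.ofReal_mul ha, ← ENNReal.ofReal_mul hb,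
        ← ENNReal.ofReal_add (by positivity) (by positivity)]
      apply ENNReal.ofReal_le_ofReal
      have := (convexOn_pow n).2 (show w1 x ∈ Ici (0 : ℝ) from p1) (show w2 x ∈ Ici (0 : ℝ) from p2)
        ha hb hab
      simpa [smul_eq_mul] using this
    have hmeas1 : AEMeasurable (fun x => ENNReal.ofReal (w1 x) ^ n) (muB n) :=
      ((Lp.aestronglyMeasurable w1).aemeasurable.ennreal_ofReal).pow_const n
    have hmeas2 : AEMeasurable (fun x => ENNReal.ofReal (w2 x) ^ n) (muB n) :=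
      ((Lp.aestronglyMeasurable w2).aemeasurable.ennreal_ofReal).pow_const n
    calc ∫⁻ x in BB n, ENNReal.ofReal ((a • w1 + b • w2 : Lp ℝ 2 (muB n)) x) ^ n
        ≤ ∫⁻ x in BB n, (ENNReal.ofReal a * ENNReal.ofReal (w1 x) ^ n +
          ENNReal.ofReal b * ENNReal.ofReal (w2 x) ^ n) := lintegral_mono_ae hle
      _ = ENNReal.ofReal a * (∫⁻ x in BB n, ENNReal.ofReal (w1 x) ^ n) +
          ENNReal.ofReal b * (∫⁻ x in BB n, ENNReal.ofReal (w2 x) ^ n) := by
          rw [lintegral_add_left' (hmeas1.const_mul _), lintegral_const_mul'' _ hmeas1,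
            lintegral_const_mul'' _ hmeas2]
      _ ≤ ENNReal.ofReal a * m + ENNReal.ofReal b * m := by gcongr
      _ = m := by
          rw [← add_mul, ← ENNReal.ofReal_add ha hb, hab, ENNReal.ofReal_one, one_mul]

theorem mono_Q (m : ℕ) (v : E n → E n) {ε ε' : ℝ} (h : ε ≤ ε') : Q m v ε ⊆ Q m v ε' := by
  rintro w ⟨u, N, hN, hd, hp, hi, hm⟩
  exact ⟨u, N, hN, fun x hx => (hd x hx).trans h, hp, hi, hm⟩

theorem sq_le_one_add {n : ℕ} (hn : 2 ≤ n) (t : ℝ≥0∞) : t ^ 2 ≤ 1 + t ^ n := by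
  rcases le_total t 1 with h | h
  · calc t ^ 2 ≤ 1 ^ 2 := by gcongr
      _ = 1 := one_pow 2
      _ ≤ 1 + t ^ n := le_self_add
  · calc t ^ 2 ≤ t ^ n := pow_le_pow_right₀ h hn
      _ ≤ 1 + t ^ n := le_add_self

theorem norm_Q (hn : 2 ≤ n) (m : ℕ) (v : E n → E n) (ε : ℝ) (w : Lp ℝ 2 (muB n))
    (hw : w ∈ Q m v ε) : ‖w‖ ≤ ((volume (BB n) + m) ^ (1 / 2 : ℝ)).toReal := by
  obtain ⟨u, N, hN, hd, hp, hi, hm⟩ := hw
  rw [Lp.norm_def]
  apply ENNReal.toReal_mono
  · exact ENNReal.rpow_ne_top_of_nonneg (by norm_num)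
      (ENNReal.add_ne_top.2 ⟨finB.ne, ENNReal.natCast_ne_top m⟩)
  · rw [eLpNorm_eq_lintegral_rpow_enorm_toReal (by norm_num) (by norm_num)]
    simp only [ENNReal.toReal_ofNat]
    apply ENNReal.rpow_le_rpow _ (by norm_num)
    have hn1 : ∀ᵐ x ∂(muB n), x ∉ N := by
      have : ∀ᵐ x ∂(volume : Measure (E n)), x ∉ N := measure_eq_zero_iff_ae_notMem.1 hN
      exact ae_restrict_of_ae this
    have hB : ∀ᵐ x ∂(muB n), x ∈ BB n := ae_restrict_mem measB
    have hle : ∀ᵐ x ∂(muB n), ‖w x‖ₑ ^ (2 : ℝ) ≤ 1 + ENNReal.ofReal (w x) ^ n := by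
      filter_upwards [hn1, hB] with x h1 h2
      have p1 := hp x h2 h1
      rw [Real.enorm_eq_ofReal p1]
      have := sq_le_one_add hn (ENNReal.ofReal (w x))
      simpa using this
    calc ∫⁻ x, ‖w x‖ₑ ^ (2 : ℝ) ∂(muB n) ≤ ∫⁻ x, (1 + ENNReal.ofReal (w x) ^ n) ∂(muB n) :=
          lintegral_mono_ae hle
      _ = volume (BB n) + ∫⁻ x in BB n, ENNReal.ofReal (w x) ^ n := by
          rw [lintegral_add_left measurable_const]
          simp [muB]
      _ ≤ volume (BB n) + m := by gcongr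

theorem nonempty_Q (hn : 2 ≤ n) (m : ℕ) (v : E n → E n) (ε : ℝ) (u : E n → E n)
    (hu : SobOn m u) (hd : ∀ x ∈ BB n, dist (u x) (v x) ≤ ε) : (Q m v ε).Nonempty := by
  obtain ⟨g, hg, hH, hm⟩ := hu
  have hfin : ∀ᵐ x ∂(muB n), g x < ∞ := by
    have h1 : ∀ᵐ x ∂(muB n), g x ^ n < ∞ :=
      ae_lt_top (hg.pow_const n) (hm.trans_lt (ENNReal.natCast_lt_top m)).ne
    filter_upwards [h1] with x hx
    by_contra hcon
    rw [not_lt, top_le_iff] at hcon
    rw [hcon, ENNReal.top_pow (by omega)] at hx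
    exact lt_irrefl _ hx
  have hmem : MemLp (fun x => (g x).toReal) 2 (muB n) := by
    refine ⟨hg.ennreal_toReal.aestronglyMeasurable, ?_⟩
    rw [eLpNorm_eq_lintegral_rpow_enorm_toReal (by norm_num) (by norm_num)]
    simp only [ENNReal.toReal_ofNat]
    apply ENNReal.rpow_lt_top_of_nonneg (by norm_num)
    apply ne_of_lt
    calc ∫⁻ x, ‖(g x).toReal‖ₑ ^ (2 : ℝ) ∂(muB n) ≤ ∫⁻ x, (1 + g x ^ n) ∂(muB n) := by
          apply lintegral_mono
          intro x
          show ‖(g x).toReal‖ₑ ^ (2 : ℝ) ≤ 1 + g x ^ n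
          rw [Real.enorm_eq_ofReal ENNReal.toReal_nonneg]
          have h1 : ENNReal.ofReal (g x).toReal ≤ g x := ENNReal.ofReal_toReal_le
          have h2 := sq_le_one_add hn (g x)
          calc ENNReal.ofReal (g x).toReal ^ (2 : ℝ) ≤ (g x) ^ (2 : ℝ) :=
                ENNReal.rpow_le_rpow h1 (by norm_num)
            _ ≤ 1 + g x ^ n := by simpa using h2
      _ = volume (BB n) + ∫⁻ x in BB n, g x ^ n := by
          rw [lintegral_add_left measurable_const]
          simp [muB]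
      _ ≤ volume (BB n) + m := by gcongr
      _ < ∞ := ENNReal.add_lt_top.2 ⟨finB, ENNReal.natCast_lt_top m⟩
  have hae : ∀ᵐ x ∂(muB n), (hmem.toLp _ : Lp ℝ 2 (muB n)) x = (g x).toReal ∧ g x < ∞ := by
    filter_upwards [hmem.coeFn_toLp, hfin] with x h1 h2
    exact ⟨h1, h2⟩
  refine ⟨hmem.toLp _, u, {x | ¬ (x ∈ BB n → (hmem.toLp _ : Lp ℝ 2 (muB n)) x = (g x).toReal ∧
    g x < ∞)}, null_of_ae hae, hd, ?_, ?_, ?_⟩
  · intro x hx hxN
    simp only [Set.mem_ofPred_eq, not_not] at hxN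
    rw [(hxN hx).1]
    exact ENNReal.toReal_nonneg
  · intro x hx hxN y hy hyN
    simp only [Set.mem_ofPred_eq, not_not] at hxN hyN
    rw [(hxN hx).1, (hyN hy).1]
    have h1 := hH x hx y hy
    have h2 := (hxN hx).2
    have h3 := (hyN hy).2
    rw [← ENNReal.toReal_add h2.ne h3.ne, dist_edist, dist_edist, ← ENNReal.toReal_mul]
    apply ENNReal.toReal_mono _ h1
    exact ENNReal.mul_ne_top (edist_ne_top _ _) (ENNReal.add_ne_top.2 ⟨h2.ne, h3.ne⟩)
  · refine le_trans (le_of_eq ?_) hm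
    apply lintegral_congr_ae
    filter_upwards [hae] with x hx
    rw [hx.1, ENNReal.ofReal_toReal hx.2.ne]

theorem cl : S_CL := by
  intro n hn m u v hu hv
  classical
  set C : ℝ := ((volume (BB n) + m) ^ (1 / 2 : ℝ)).toReal with hC
  have hne : ∀ k : ℕ, (Q m v (1 / ((k : ℝ) + 1))).Nonempty := by
    intro k
    have hpos : (0 : ℝ) < 1 / ((k : ℝ) + 1) := by positivity
    obtain ⟨i, hi⟩ := (Metric.tendstoUniformlyOn_iff.1 hv _ hpos).exists
    refine nonempty_Q hn m v _ (u i) (hu i) ?_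
    intro x hx
    rw [dist_comm]
    exact (hi x hx).le
  have hanti : Antitone (fun k : ℕ => Q m v (1 / ((k : ℝ) + 1))) := by
    intro k l hkl
    apply mono_Q
    apply one_div_le_one_div_of_le (by positivity)
    have : (k : ℝ) ≤ l := by exact_mod_cast hkl
    linarith
  obtain ⟨w, q, hq, hlim⟩ := hilbert (fun k : ℕ => Q m v (1 / ((k : ℝ) + 1)))
    (fun k => convex_Q m v _) hne hanti C (fun k w hw => norm_Q hn m v _ w hw)
  -- almost everywhere convergence of a subsequence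
  have hmeasure : TendstoInMeasure (muB n) (fun k => (q k : E n → ℝ)) atTop (w : E n → ℝ) := by
    apply tendstoInMeasure_of_tendsto_Lp
    exact hlim
  obtain ⟨ns, hns, hae⟩ := hmeasure.exists_seq_tendsto_ae
  choose u' N hN hd hp hi hm using hq
  set N' : Set (E n) := (⋃ k, N k) ∪
    {x | ¬ (x ∈ BB n → Tendsto (fun i => (q (ns i) : E n → ℝ) x) atTop (𝓝 (w x)))} with hN'
  have hN'0 : volume N' = 0 := by
    rw [hN', measure_union_null_iff, measure_iUnion_null_iff]
    exact ⟨hN, null_of_ae hae⟩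
  set M : Set (E n) := toMeasurable volume N' with hM
  have hM0 : volume M = 0 := by rw [hM, measure_toMeasurable, hN'0]
  have hMm : MeasurableSet M := measurableSet_toMeasurable _ _
  have hNM : N' ⊆ M := subset_toMeasurable _ _
  have hgood : ∀ x ∈ BB n, x ∉ M → (∀ k, x ∉ N k) ∧
      Tendsto (fun i => (q (ns i) : E n → ℝ) x) atTop (𝓝 (w x)) := by
    intro x hx hxM
    have hxN : x ∉ N' := fun h => hxM (hNM h)
    simp only [hN', mem_union, mem_iUnion, Set.mem_ofPred_eq, not_or, not_exists, not_not] at hxN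
    exact ⟨hxN.1, hxN.2 hx⟩
  have hw0 : ∀ x ∈ BB n, x ∉ M → 0 ≤ w x := by
    intro x hx hxM
    obtain ⟨h1, h2⟩ := hgood x hx hxM
    exact ge_of_tendsto' h2 (fun i => hp (ns i) x hx (h1 _))
  have hu'v : ∀ x ∈ BB n, Tendsto (fun i => u' (ns i) x) atTop (𝓝 (v x)) := by
    intro x hx
    rw [tendsto_iff_dist_tendsto_zero]
    refine squeeze_zero (fun _ => dist_nonneg) (fun i => hd (ns i) x hx) ?_
    exact tendsto_one_div_add_atTop_nhds_zero_nat.comp hns.tendsto_atTop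
  have hineq : ∀ x ∈ BB n, x ∉ M → ∀ y ∈ BB n, y ∉ M →
      dist (v x) (v y) ≤ dist x y * (w x + w y) := by
    intro x hx hxM y hy hyM
    obtain ⟨h1, h2⟩ := hgood x hx hxM
    obtain ⟨h3, h4⟩ := hgood y hy hyM
    refine le_of_tendsto_of_tendsto' ((hu'v x hx).dist (hu'v y hy))
      ((h2.add h4).const_mul (dist x y)) ?_
    intro i
    exact hi (ns i) x hx (h1 _) y hy (h3 _)
  have hwmeas : Measurable (w : E n → ℝ) := (Lp.stronglyMeasurable w).measurable
  have hfatou : ∫⁻ x in BB n, ENNReal.ofReal (w x) ^ n ≤ m := by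
    have hq_meas : ∀ k, Measurable (fun x => ENNReal.ofReal ((q k : E n → ℝ) x) ^ n) := fun k =>
      ((Lp.stronglyMeasurable (q k)).measurable.ennreal_ofReal).pow_const n
    calc ∫⁻ x in BB n, ENNReal.ofReal (w x) ^ n
        = ∫⁻ x in BB n, liminf (fun i => ENNReal.ofReal ((q (ns i) : E n → ℝ) x) ^ n) atTop := by
          apply lintegral_congr_ae
          filter_upwards [hae] with x hx
          have h1 : Tendsto (fun i => ENNReal.ofReal ((q (ns i) : E n → ℝ) x) ^ n) atTop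
              (𝓝 (ENNReal.ofReal (w x) ^ n)) :=
            ((ENNReal.continuous_pow n).tendsto _).comp
              ((ENNReal.continuous_ofReal.tendsto _).comp hx)
          exact h1.liminf_eq.symm
      _ ≤ liminf (fun i => ∫⁻ x in BB n, ENNReal.ofReal ((q (ns i) : E n → ℝ) x) ^ n) atTop :=
          lintegral_liminf_le (fun i => hq_meas (ns i))
      _ ≤ m := by
          apply liminf_le_of_le
          · isBoundedDefault
          · intro b hb
            obtain ⟨i, hi'⟩ := hb.exists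
            exact hi'.trans (hm (ns i))
  refine ⟨fun x => if x ∈ M then ∞ else ENNReal.ofReal (w x), ?_, ?_, ?_⟩
  · exact Measurable.ite hMm measurable_const hwmeas.ennreal_ofReal
  · intro x hx y hy
    rcases eq_or_ne x y with hxy | hxy
    · subst hxy
      simp
    · by_cases hxM : x ∈ M
      · simp only [hxM, if_true, top_add]
        rw [ENNReal.mul_top (edist_pos.2 hxy).ne']
        exact le_top
      · by_cases hyM : y ∈ M
        · simp only [hyM, if_true, add_top]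
          rw [ENNReal.mul_top (edist_pos.2 hxy).ne']
          exact le_top
        · simp only [hxM, hyM, if_false]
          have h1 := hineq x hx hxM y hy hyM
          have p1 := hw0 x hx hxM
          have p2 := hw0 y hy hyM
          rw [edist_dist, edist_dist, ← ENNReal.ofReal_add p1 p2,
            ← ENNReal.ofReal_mul dist_nonneg]
          exact ENNReal.ofReal_le_ofReal h1
  · refine le_trans (le_of_eq ?_) hfatou
    apply lintegral_congr_ae
    have hMae : ∀ᵐ x ∂(muB n), x ∉ M := by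
      have : ∀ᵐ x ∂(volume : Measure (E n)), x ∉ M := measure_eq_zero_iff_ae_notMem.1 hM0
      exact ae_restrict_of_ae this
    filter_upwards [hMae] with x hx
    simp only [hx, if_false]

end Pool.Agent.Y689.HS.CL
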